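import Mathlib

/-!
# Finite orbits on plane curves: definitions

`K[X][Y]` is the polynomial ring `K[x,y]`: the inner variable is `x`, the outer variable is `y`;
`ℙ¹(K)` is `OnePoint K = K ∪ {∞}`.
-/

set_option autoImplicit false

open Polynomial Polynomial.Bivariate

namespace Pool.Agent.Helper581_FO

variable {K : Type*} [Field K]

/-- The degree of `p` in `x` (the inner variable). -/
noncomputable def degX (p : K[X][Y]) : ℕ := p.support.sup fun j => (p.coeff j).natDegree

/-- The degree of `p` in `y` (the outer variable). -/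
noncomputable def degY (p : K[X][Y]) : ℕ := p.natDegree

/-- The bihomogenization `x₀ ^ deg_x p * y₀ ^ deg_y p * p (x₁ / x₀, y₁ / y₀)`. -/
noncomputable def bihom (p : K[X][Y]) (x y : K × K) : K :=
  ∑ j ∈ Finset.range (degY p + 1), ∑ i ∈ Finset.range (degX p + 1),
    (p.coeff j).coeff i * (x.2 ^ i * x.1 ^ (degX p - i)) * (y.2 ^ j * y.1 ^ (degY p - j))

/-- The set `⟨p⟩` of the elements of `K(x,y)` whose reduced denominator is not divisible by `p` and
whose reduced numerator is divisible by `p`. -/
def InIdeal (p : K[X][Y]) (q : FractionRing K[X][Y]) : Prop :=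
  ∃ a b : K[X][Y], b ≠ 0 ∧ IsRelPrime a b ∧
    q = algebraMap K[X][Y] (FractionRing K[X][Y]) a / algebraMap K[X][Y] (FractionRing K[X][Y]) b ∧
    ¬ p ∣ b ∧ p ∣ a

/-- `f ∈ K(x)` as an element of `K(x,y)`. -/
noncomputable def inX (f : RatFunc K) : FractionRing K[X][Y] :=
  algebraMap K[X][Y] (FractionRing K[X][Y]) (C f.num) /
    algebraMap K[X][Y] (FractionRing K[X][Y]) (C f.denom)

/-- `g ∈ K(y)` as an element of `K(x,y)`. -/
noncomputable def inY (g : RatFunc K) : FractionRing K[X][Y] :=
  algebraMap K[X][Y] (FractionRing K[X][Y]) (g.num.map C) /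
    algebraMap K[X][Y] (FractionRing K[X][Y]) (g.denom.map C)

/-- The field `F(p)` of separated multiples is trivial. -/
def TrivialField (p : K[X][Y]) : Prop :=
  ∀ f g : RatFunc K, InIdeal p (inX f - inY g) → ∃ c : K, f = RatFunc.C c ∧ g = RatFunc.C c

/-- Homogeneous coordinates `(x₀, x₁)` of a point of `ℙ¹(K) = K ∪ {∞}`: the point `a` is `[1 : a]`,
the point `∞` is `[0 : 1]`. -/
noncomputable def coords (s : OnePoint K) : K × K := s.elim (0, 1) (fun a => (1, a))

/-- The curve `C` in `ℙ¹ × ℙ¹`. -/
def Curve (p : K[X][Y]) : Set (OnePoint K × OnePoint K) :=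
  {P | bihom p (coords P.1) (coords P.2) = 0}

/-- Two points of the curve with the same first or the same second coordinate. -/
def Step (p : K[X][Y]) (P Q : OnePoint K × OnePoint K) : Prop :=
  P ∈ Curve p ∧ Q ∈ Curve p ∧ (P.1 = Q.1 ∨ P.2 = Q.2)

/-- The orbit of a point: the points which can be reached from it by finitely many moves. -/
def orbit (p : K[X][Y]) (P : OnePoint K × OnePoint K) : Set (OnePoint K × OnePoint K) :=
  {Q | Relation.ReflTransGen (Step p) P Q}

end Pool.Agent.Helper581_FO
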