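import Mathlib
import Pool.Agent.Helper581_FO.Defs

set_option autoImplicit false

open Polynomial Polynomial.Bivariate

namespace Pool.Agent.Helper581_FO

variable {K : Type*} [Field K]

section bihomogenization

theorem coeff_swap (p : K[X][Y]) (i j : ℕ) : ((swap p).coeff i).coeff j = (p.coeff j).coeff i := by
  induction p using Polynomial.induction_on' with
  | add p q hp hq => simp only [map_add, coeff_add, hp, hq]
  | monomial n f =>
    induction f using Polynomial.induction_on' with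
    | add f g hf hg => simp only [map_add, coeff_add, hf, hg]
    | monomial m r =>
      rw [Bivariate.swap_monomial_monomial]
      by_cases h1 : m = i <;> by_cases h2 : n = j <;> simp [coeff_monomial, h1, h2]

theorem degY_le_iff (p : K[X][Y]) (N : ℕ) :
    degY p ≤ N ↔ ∀ j i, N < j → (p.coeff j).coeff i = 0 := by
  unfold degY
  rw [natDegree_le_iff_coeff_eq_zero]
  constructor
  · intro h j i hj
    rw [h j hj, coeff_zero]
  · intro h j hj
    ext i
    rw [h j i hj, coeff_zero]

theorem degX_le_iff (p : K[X][Y]) (N : ℕ) :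
    degX p ≤ N ↔ ∀ j i, N < i → (p.coeff j).coeff i = 0 := by
  unfold degX
  rw [Finset.sup_le_iff]
  constructor
  · intro h j i hi
    by_cases hj : j ∈ p.support
    · exact coeff_eq_zero_of_natDegree_lt (lt_of_le_of_lt (h j hj) hi)
    · rw [notMem_support_iff.1 hj, coeff_zero]
  · intro h j _
    rw [natDegree_le_iff_coeff_eq_zero]
    intro i hi
    exact h j i hi

theorem degX_swap (p : K[X][Y]) : degX (swap p) = degY p := by
  apply eq_of_forall_ge_iff
  intro N
  rw [degX_le_iff, degY_le_iff]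
  constructor
  · intro h j i hj
    rw [← coeff_swap]
    exact h i j hj
  · intro h j i hi
    rw [coeff_swap]
    exact h i j hi

theorem degY_swap (p : K[X][Y]) : degY (swap p) = degX p := by
  apply eq_of_forall_ge_iff
  intro N
  rw [degX_le_iff, degY_le_iff]
  constructor
  · intro h j i hj
    rw [← coeff_swap]
    exact h i j hj
  · intro h j i hi
    rw [coeff_swap]
    exact h i j hi

theorem natDegree_coeff_le (p : K[X][Y]) (j : ℕ) : (p.coeff j).natDegree ≤ degX p := by
  rw [natDegree_le_iff_coeff_eq_zero]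
  intro i hi
  exact (degX_le_iff p (degX p)).1 le_rfl j i hi

theorem eval_coeff_eq (p : K[X][Y]) (j : ℕ) (a : K) :
    (p.coeff j).eval a = ∑ i ∈ Finset.range (degX p + 1), (p.coeff j).coeff i * a ^ i :=
  eval_eq_sum_range' (Nat.lt_succ_of_le (natDegree_coeff_le p j)) a

theorem bihom_fin (p : K[X][Y]) (a b : K) : bihom p (1, a) (1, b) = p.evalEval a b := by
  have h1 : p.evalEval a b = ∑ j ∈ Finset.range (degY p + 1), (p.coeff j).eval a * b ^ j := by
    unfold evalEval degY
    rw [eval_eq_sum_range (p := p) (C b), eval_finsetSum]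
    apply Finset.sum_congr rfl
    intro j _
    rw [eval_mul, eval_pow, eval_C]
  rw [h1]
  unfold bihom
  apply Finset.sum_congr rfl
  intro j _
  rw [eval_coeff_eq, Finset.sum_mul]
  apply Finset.sum_congr rfl
  intro i _
  simp

theorem bihom_inf_right (p : K[X][Y]) (a : K) : bihom p (1, a) (0, 1) = p.leadingCoeff.eval a := by
  unfold bihom
  rw [Finset.sum_eq_single (degY p)]
  · have h1 : p.leadingCoeff = p.coeff (degY p) := rfl
    rw [h1, eval_coeff_eq]
    apply Finset.sum_congr rfl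
    intro i _
    simp
  · intro j hj hne
    apply Finset.sum_eq_zero
    intro i _
    have h2 : degY p - j ≠ 0 := by
      have := Finset.mem_range.1 hj
      omega
    simp [h2]
  · intro h
    exact absurd (Finset.mem_range.2 (Nat.lt_succ_self _)) h

theorem bihom_swap (p : K[X][Y]) (x y : K × K) : bihom (swap p) x y = bihom p y x := by
  unfold bihom
  rw [degY_swap, degX_swap, Finset.sum_comm]
  apply Finset.sum_congr rfl
  intro i _
  apply Finset.sum_congr rfl
  intro j _
  rw [coeff_swap]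
  ring

theorem evalEval_swap' (p : K[X][Y]) (a b : K) : (swap p).evalEval b a = p.evalEval a b := by
  rw [← bihom_fin, ← bihom_fin, bihom_swap]

end bihomogenization

section separated

/-- use IsFractionRing.exists_reduced_fraction and that p is prime -/
theorem inIdeal_of (p a b : K[X][Y]) (hp : Prime p) (hb : b ≠ 0) (h1 : ¬ p ∣ b) (h2 : p ∣ a) :
    InIdeal p (algebraMap K[X][Y] (FractionRing K[X][Y]) a /
      algebraMap K[X][Y] (FractionRing K[X][Y]) b) := by
  obtain ⟨a', b', hrel, he⟩ := IsFractionRing.exists_reduced_fraction (A := K[X][Y])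
    (algebraMap K[X][Y] (FractionRing K[X][Y]) a / algebraMap K[X][Y] (FractionRing K[X][Y]) b)
  have hb' : (b' : K[X][Y]) ≠ 0 := nonZeroDivisors.ne_zero b'.2
  have hinj : Function.Injective (algebraMap K[X][Y] (FractionRing K[X][Y])) :=
    IsFractionRing.injective _ _
  rw [IsFractionRing.mk'_eq_div] at he
  have hbF : algebraMap K[X][Y] (FractionRing K[X][Y]) b ≠ 0 := by
    rw [Ne, map_eq_zero_iff _ hinj]; exact hb
  have hbF' : algebraMap K[X][Y] (FractionRing K[X][Y]) b' ≠ 0 := by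
    rw [Ne, map_eq_zero_iff _ hinj]; exact hb'
  have hcross : a' * b = a * b' := by
    rw [div_eq_div_iff hbF' hbF] at he
    apply hinj
    rw [map_mul, map_mul]
    exact he
  have hpa' : p ∣ a' := by
    have : p ∣ a' * b := by
      rw [hcross]; exact h2.mul_right _
    rcases hp.dvd_or_dvd this with h | h
    · exact h
    · exact absurd h h1
  refine ⟨a', b', hb', hrel, he.symm, ?_, hpa'⟩
  intro hpb'
  exact hp.not_isUnit (hrel hpa' hpb')

theorem num_denom_cross (f g : K[X]) (hg : g ≠ 0) :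
    (algebraMap K[X] (RatFunc K) f / algebraMap K[X] (RatFunc K) g).num * g =
      f * (algebraMap K[X] (RatFunc K) f / algebraMap K[X] (RatFunc K) g).denom := by
  have hinj : Function.Injective (algebraMap K[X] (RatFunc K)) := IsFractionRing.injective _ _
  have hd := RatFunc.denom_ne_zero (algebraMap K[X] (RatFunc K) f / algebraMap K[X] (RatFunc K) g)
  have h := RatFunc.num_div_denom (algebraMap K[X] (RatFunc K) f / algebraMap K[X] (RatFunc K) g)
  rw [div_eq_div_iff] at h
  · apply hinj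
    rw [map_mul, map_mul]
    exact h
  · rw [Ne, map_eq_zero_iff _ hinj]; exact hd
  · rw [Ne, map_eq_zero_iff _ hinj]; exact hg

theorem inX_div (f g : K[X]) (hg : g ≠ 0) :
    inX (algebraMap K[X] (RatFunc K) f / algebraMap K[X] (RatFunc K) g) =
      algebraMap K[X][Y] (FractionRing K[X][Y]) (C f) /
        algebraMap K[X][Y] (FractionRing K[X][Y]) (C g) := by
  have hinj : Function.Injective (algebraMap K[X][Y] (FractionRing K[X][Y])) :=
    IsFractionRing.injective _ _
  have h : (algebraMap K[X] (RatFunc K) f / algebraMap K[X] (RatFunc K) g).num * g =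
      f * (algebraMap K[X] (RatFunc K) f / algebraMap K[X] (RatFunc K) g).denom := num_denom_cross f g hg
  unfold inX
  have hd := RatFunc.denom_ne_zero (algebraMap K[X] (RatFunc K) f / algebraMap K[X] (RatFunc K) g)
  rw [div_eq_div_iff]
  · rw [← map_mul (algebraMap K[X][Y] (FractionRing K[X][Y])),
      ← map_mul (algebraMap K[X][Y] (FractionRing K[X][Y])), ← C_mul, ← C_mul, h]
  · rw [Ne, map_eq_zero_iff _ hinj, C_eq_zero]; exact hd
  · rw [Ne, map_eq_zero_iff _ hinj, C_eq_zero]; exact hg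

theorem inY_div (f g : K[X]) (hg : g ≠ 0) :
    inY (algebraMap K[X] (RatFunc K) f / algebraMap K[X] (RatFunc K) g) =
      algebraMap K[X][Y] (FractionRing K[X][Y]) (f.map C) /
        algebraMap K[X][Y] (FractionRing K[X][Y]) (g.map C) := by
  have hinj : Function.Injective (algebraMap K[X][Y] (FractionRing K[X][Y])) :=
    IsFractionRing.injective _ _
  have hC : Function.Injective (C : K →+* K[X]) := C_injective
  have h : (algebraMap K[X] (RatFunc K) f / algebraMap K[X] (RatFunc K) g).num * g =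
      f * (algebraMap K[X] (RatFunc K) f / algebraMap K[X] (RatFunc K) g).denom := num_denom_cross f g hg
  unfold inY
  have hd := RatFunc.denom_ne_zero (algebraMap K[X] (RatFunc K) f / algebraMap K[X] (RatFunc K) g)
  rw [div_eq_div_iff]
  · rw [← map_mul, ← map_mul, ← Polynomial.map_mul, ← Polynomial.map_mul, h]
  · rw [Ne, map_eq_zero_iff _ hinj, Polynomial.map_eq_zero_iff hC]; exact hd
  · rw [Ne, map_eq_zero_iff _ hinj, Polynomial.map_eq_zero_iff hC]; exact hg

theorem not_dvd_C (p : K[X][Y]) (hx : ∀ f : K[X], p ≠ C f) (f : K[X]) (hf : f ≠ 0) :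
    ¬ p ∣ C f := by
  intro h
  have hd : p.natDegree ≤ 0 := by
    have := natDegree_le_of_dvd h (by rwa [Ne, C_eq_zero])
    rwa [natDegree_C] at this
  exact hx _ (eq_C_of_natDegree_le_zero hd)

theorem not_dvd_map (p : K[X][Y]) (hy : ∀ g : K[X], p ≠ g.map C) (g : K[X]) (hg : g ≠ 0) :
    ¬ p ∣ (g.map C : K[X][Y]) := by
  intro h
  obtain ⟨q, hq⟩ := h
  have h2 : Bivariate.swap (R := K) p ∣ C g := by
    refine ⟨Bivariate.swap (R := K) q, ?_⟩
    have h3 : Bivariate.swap (R := K) (g.map C) = Bivariate.swap (R := K) (p * q) :=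
      congrArg _ hq
    rw [map_mul] at h3
    rw [← h3]
    exact (Bivariate.swap_map_C g).symm
  refine not_dvd_C (Bivariate.swap (R := K) p) ?_ g hg h2
  intro f hf
  apply hy f
  have h4 : Bivariate.swap (R := K) (Bivariate.swap (R := K) p) = Bivariate.swap (R := K) (C f) :=
    congrArg _ hf
  have h5 := Bivariate.swap_swap_apply (R := K) p
  have h6 := Bivariate.swap_C (R := K) f
  exact h5.symm.trans (h4.trans h6)

theorem frac_aux {F : Type*} [Field F] {x1 x2 x3 x4 x5 : F} (h2 : x2 ≠ 0) (h5 : x5 ≠ 0) :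
    x1 / x2 - x3 * x4 / x5 = (x1 * x5 - x3 * (x2 * x4)) / (x2 * x5) := by
  field_simp

/-- apply the hypothesis to f = F1 / F2 and g = c G1 / G2: then F1 = c' F2, but F1 vanishes at a and F2 does not. p does not divide
C F2 * G2.map C, since p is prime and divides no nonzero polynomial in x alone or in y alone (degrees). -/
theorem no_separated (p : K[X][Y]) (hp : Prime p) (hx : ∀ f : K[X], p ≠ C f)
    (hy : ∀ g : K[X], p ≠ g.map C) (hF : TrivialField p) (F1 F2 G1 G2 : K[X]) (c : K)
    (hF2 : F2 ≠ 0) (hG2 : G2 ≠ 0)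
    (h : p ∣ C F1 * G2.map C - C (C c) * (C F2 * G1.map C)) (a : K) (ha : F1.eval a = 0)
    (ha2 : F2.eval a ≠ 0) (hF1 : F1 ≠ 0) : False := by
  have hinj : Function.Injective (algebraMap K[X][Y] (FractionRing K[X][Y])) :=
    IsFractionRing.injective _ _
  have hinj' : Function.Injective (algebraMap K[X] (RatFunc K)) := IsFractionRing.injective _ _
  have hC : Function.Injective (C : K →+* K[X]) := C_injective
  have hn : ¬ p ∣ C F2 * G2.map C := by
    intro hd
    rcases hp.dvd_or_dvd hd with hd | hd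
    · exact not_dvd_C p hx F2 hF2 hd
    · exact not_dvd_map p hy G2 hG2 hd
  have hne : (C F2 * G2.map C : K[X][Y]) ≠ 0 := by
    intro h0
    exact hn (h0 ▸ dvd_zero p)
  have hA : algebraMap K[X][Y] (FractionRing K[X][Y]) (C F2) ≠ 0 := by
    rw [Ne, map_eq_zero_iff _ hinj]; exact left_ne_zero_of_mul hne
  have hB : algebraMap K[X][Y] (FractionRing K[X][Y]) (G2.map C) ≠ 0 := by
    rw [Ne, map_eq_zero_iff _ hinj]; exact right_ne_zero_of_mul hne
  obtain ⟨c', hc', -⟩ := hF (algebraMap K[X] (RatFunc K) F1 / algebraMap K[X] (RatFunc K) F2)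
    (algebraMap K[X] (RatFunc K) (C c * G1) / algebraMap K[X] (RatFunc K) G2) (by
      rw [inX_div F1 F2 hF2, inY_div (C c * G1) G2 hG2]
      have he : algebraMap K[X][Y] (FractionRing K[X][Y]) (C F1) /
            algebraMap K[X][Y] (FractionRing K[X][Y]) (C F2) -
          algebraMap K[X][Y] (FractionRing K[X][Y]) ((C c * G1).map C) /
            algebraMap K[X][Y] (FractionRing K[X][Y]) (G2.map C) =
          algebraMap K[X][Y] (FractionRing K[X][Y])
              (C F1 * G2.map C - C (C c) * (C F2 * G1.map C)) /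
            algebraMap K[X][Y] (FractionRing K[X][Y]) (C F2 * G2.map C) := by
        have e1 : ((C c * G1).map C : K[X][Y]) = C (C c) * G1.map C := by
          rw [Polynomial.map_mul, Polynomial.map_C]
        rw [e1, map_sub, map_mul (algebraMap K[X][Y] (FractionRing K[X][Y])),
          map_mul (algebraMap K[X][Y] (FractionRing K[X][Y])),
          map_mul (algebraMap K[X][Y] (FractionRing K[X][Y])),
          map_mul (algebraMap K[X][Y] (FractionRing K[X][Y])),
          map_mul (algebraMap K[X][Y] (FractionRing K[X][Y]))]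
        exact frac_aux hA hB
      rw [he]
      exact inIdeal_of p _ _ hp hne hn h)
  have hF2' : algebraMap K[X] (RatFunc K) F2 ≠ 0 := by
    rw [Ne, map_eq_zero_iff _ hinj']; exact hF2
  rw [div_eq_iff hF2', ← RatFunc.algebraMap_C, ← map_mul] at hc'
  have h1 : F1 = C c' * F2 := hinj' hc'
  have h2 : c' * F2.eval a = 0 := by
    rw [← ha, h1, eval_mul, eval_C]
  rcases mul_eq_zero.1 h2 with h3 | h3
  · apply hF1
    rw [h1, h3, C_0, zero_mul]
  · exact ha2 h3

end separated

section badset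

theorem bad_finite_aux [CharZero K] (p : K[X][Y]) (hp : Irreducible p) (hx : ∀ f : K[X], p ≠ C f) :
    ∃ (r : K[X]) (u v : K[X][Y]), r ≠ 0 ∧ u * p + v * derivative p = C r := by
  have hdeg : p.natDegree ≠ 0 := by
    intro h
    obtain ⟨f, hf⟩ := natDegree_eq_zero.1 h
    exact hx f hf.symm
  have hprim : p.IsPrimitive := hp.isPrimitive hdeg
  have hirr : Irreducible (p.map (algebraMap K[X] (FractionRing K[X]))) :=
    (hprim.irreducible_iff_irreducible_map_fraction_map (K := FractionRing K[X])).1 hp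
  have hchar : CharZero (FractionRing K[X]) := by
    have : CharZero K[X] := inferInstance
    exact charZero_of_injective_algebraMap (IsFractionRing.injective K[X] (FractionRing K[X]))
  have hsep := hirr.separable
  obtain ⟨a, b, hab⟩ := hsep
  obtain ⟨ra, hra, ha⟩ := IsLocalization.integerNormalization_spec (nonZeroDivisors K[X]) a
  obtain ⟨rb, hrb, hb⟩ := IsLocalization.integerNormalization_spec (nonZeroDivisors K[X]) b
  refine ⟨ra * rb, C rb * IsLocalization.integerNormalization (nonZeroDivisors K[X]) a,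
    C ra * IsLocalization.integerNormalization (nonZeroDivisors K[X]) b, ?_, ?_⟩
  · exact mul_ne_zero (nonZeroDivisors.ne_zero hra) (nonZeroDivisors.ne_zero hrb)
  · apply Polynomial.map_injective (algebraMap K[X] (FractionRing K[X]))
      (IsFractionRing.injective K[X] (FractionRing K[X]))
    simp only [Polynomial.map_add, Polynomial.map_mul, Polynomial.map_C]
    rw [ha, hb, ← derivative_map]
    have h1 : (ra : K[X]) • a = C (algebraMap K[X] (FractionRing K[X]) ra) * a := by
      rw [← Polynomial.smul_eq_C_mul]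
      ext n
      simp [Algebra.smul_def]
    have h2 : (rb : K[X]) • b = C (algebraMap K[X] (FractionRing K[X]) rb) * b := by
      rw [← Polynomial.smul_eq_C_mul]
      ext n
      simp [Algebra.smul_def]
    simp only [h1, h2]
    rw [map_mul, C_mul]
    linear_combination (C ((algebraMap K[X] (FractionRing K[X])) ra)
      * C ((algebraMap K[X] (FractionRing K[X])) rb)) * hab

theorem bad_finite [CharZero K] (p : K[X][Y]) (hp : Irreducible p) (hx : ∀ f : K[X], p ≠ C f) :
    {a : K | ¬ (p.leadingCoeff.eval a ≠ 0 ∧ (p.map (evalRingHom a)).Separable)}.Finite := by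
  classical
  obtain ⟨r, u, v, hr, huv⟩ := bad_finite_aux p hp hx
  have hne : p.leadingCoeff * r ≠ 0 := mul_ne_zero (leadingCoeff_ne_zero.2 hp.ne_zero) hr
  refine ((p.leadingCoeff * r).roots.toFinset.finite_toSet).subset ?_
  intro a ha
  simp only [Finset.mem_coe, Multiset.mem_toFinset]
  rw [mem_roots hne]
  by_contra hroot
  apply ha
  have h1 : (p.leadingCoeff * r).eval a ≠ 0 := hroot
  rw [eval_mul] at h1
  refine ⟨left_ne_zero_of_mul h1, ?_⟩
  have h2 : r.eval a ≠ 0 := right_ne_zero_of_mul h1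
  have h3 := congrArg (Polynomial.map (evalRingHom a)) huv
  simp only [Polynomial.map_add, Polynomial.map_mul, Polynomial.map_C, coe_evalRingHom] at h3
  refine ⟨C (r.eval a)⁻¹ * u.map (evalRingHom a), C (r.eval a)⁻¹ * v.map (evalRingHom a), ?_⟩
  rw [derivative_map]
  have h4 : (C (r.eval a)⁻¹ : K[X]) * C (r.eval a) = 1 := by
    rw [← C_mul, inv_mul_cancel₀ h2, C_1]
  linear_combination C (r.eval a)⁻¹ * h3 + h4

end badset

/-- `A` consists of good first coordinates and the points above them have second coordinates in `B` -/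
def HalfGood (p : K[X][Y]) (A B : Finset K) : Prop :=
  ∀ a ∈ A, p.leadingCoeff.eval a ≠ 0 ∧ ∃ S ⊆ B, ∃ l : K, l ≠ 0 ∧
    p.map (evalRingHom a) = C l * ∏ b ∈ S, (X - C b)

/-- both directions -/
def Good (p : K[X][Y]) (A B : Finset K) : Prop := HalfGood p A B ∧ HalfGood (swap p) B A

section valuations

variable {L : Type*} [Field L] [Algebra K L]

/-- An element which is in all valuation rings over `K` is a constant -/
theorem const_of_valuation [IsAlgClosed K] (w : L)
    (h : ∀ V : ValuationSubring L, (∀ c : K, algebraMap K L c ∈ V) → w ∈ V) :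
    ∃ c : K, w = algebraMap K L c := by
  have hI : IsIntegrallyClosedIn (⊥ : Subalgebra K L).toSubring L := by
    rw [Subring.isIntegrallyClosedIn_iff]
    intro z hz
    have hz' : IsIntegral (⊥ : Subalgebra K L) z := hz
    have : Algebra.IsIntegral K (⊥ : Subalgebra K L) := by
      refine ⟨fun u => ?_⟩
      obtain ⟨c, hc⟩ := Algebra.mem_bot.1 u.2
      have : u = algebraMap K (⊥ : Subalgebra K L) c := Subtype.ext hc.symm
      rw [this]
      exact isIntegral_algebraMap
    have h2 : IsIntegral K z := isIntegral_trans z hz'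
    have h3 : Algebra.IsAlgebraic K (IntermediateField.adjoin K {z}) :=
      IntermediateField.isAlgebraic_adjoin_simple h2
    have h4 := IntermediateField.eq_bot_of_isAlgClosed_of_isAlgebraic
      (IntermediateField.adjoin K {z})
    have h5 : z ∈ (⊥ : IntermediateField K L) := by
      rw [← h4]
      exact IntermediateField.mem_adjoin_simple_self K z
    obtain ⟨c, hc⟩ := IntermediateField.mem_bot.1 h5
    exact Algebra.mem_bot.2 ⟨c, hc⟩
  by_contra hno
  have hw : w ∉ (⊥ : Subalgebra K L).toSubring := by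
    intro hw
    obtain ⟨c, hc⟩ := Algebra.mem_bot.1 hw
    exact hno ⟨c, hc.symm⟩
  obtain ⟨V, hV, hwV⟩ := Subring.exists_le_valuationSubring_of_isIntegrallyClosedIn hw
  exact hwV (h V fun c => hV (Algebra.mem_bot.2 ⟨c, rfl⟩))

variable {Γ : Type*} [LinearOrderedCommGroupWithZero Γ] (v : Valuation L Γ)

theorem v_one (hK : ∀ c : K, v (algebraMap K L c) ≤ 1) (c : K) (hc : c ≠ 0) :
    v (algebraMap K L c) = 1 := by
  refine le_antisymm (hK c) ?_
  have h1 := hK c⁻¹
  rw [map_inv₀, map_inv₀] at h1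
  have h0 : v (algebraMap K L c) ≠ 0 := by
    simpa [Valuation.ne_zero_iff] using hc
  rw [inv_le_one₀ (zero_lt_iff.2 h0)] at h1
  exact h1

theorem v_unique (hK : ∀ c : K, v (algebraMap K L c) ≤ 1) (x : L) (a a' : K) (ha : a ≠ a')
    (h : v (x - algebraMap K L a) < 1) : v (x - algebraMap K L a') = 1 := by
  have h1 : v (algebraMap K L (a - a')) = 1 := v_one v hK _ (sub_ne_zero.2 ha)
  have h2 : x - algebraMap K L a' = (x - algebraMap K L a) + algebraMap K L (a - a') := by
    rw [map_sub]; ring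
  rw [h2, Valuation.map_add_eq_of_lt_right v (by rw [h1]; exact h), h1]

theorem v_big (hK : ∀ c : K, v (algebraMap K L c) ≤ 1) (x : L) (hx : 1 < v x) (a : K) :
    v (x - algebraMap K L a) = v x := by
  exact Valuation.map_sub_eq_of_lt_left v (lt_of_le_of_lt (hK a) hx)

theorem v_small (hK : ∀ c : K, v (algebraMap K L c) ≤ 1) (x : L) (hx : v x ≤ 1) (a : K) :
    v (x - algebraMap K L a) ≤ 1 :=
  Valuation.map_sub_le v hx (hK a)

theorem v_aeval (hK : ∀ c : K, v (algebraMap K L c) ≤ 1) (x : L) (hx : v x ≤ 1) (q : K[X]) :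
    v (aeval x q) ≤ 1 := by
  rw [aeval_eq_sum_range]
  refine Valuation.map_sum_le v fun i _ => ?_
  rw [Algebra.smul_def, map_mul, map_pow]
  exact mul_le_one' (hK _) (pow_le_one' hx _)

theorem v_aeval_sub (hK : ∀ c : K, v (algebraMap K L c) ≤ 1) (x : L) (hx : v x ≤ 1) (q : K[X])
    (a : K) : v (aeval x q - algebraMap K L (q.eval a)) ≤ v (x - algebraMap K L a) := by
  obtain ⟨r, hr⟩ : (X - C a) ∣ q - C (q.eval a) := by
    rw [dvd_iff_isRoot]; simp
  have h1 : aeval x q - algebraMap K L (q.eval a) = (x - algebraMap K L a) * aeval x r := by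
    have := congrArg (aeval x) hr
    simpa using this
  rw [h1, map_mul]
  exact mul_le_of_le_one_right' (v_aeval v hK x hx r)

theorem aevalAeval_sum (p : K[X][Y]) (x y : L) :
    aevalAeval x y p = ∑ j ∈ Finset.range (p.natDegree + 1), aeval x (p.coeff j) * y ^ j := by
  conv_lhs => rw [p.as_sum_range_C_mul_X_pow]
  rw [map_sum]
  refine Finset.sum_congr rfl fun j _ => ?_
  rw [map_mul, map_pow, aevalAeval_Y, aevalAeval_C]

/-- `y` is infinite at `v`, `x` is not: then `x` is not close to a good `a` -/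
theorem v_inf (hK : ∀ c : K, v (algebraMap K L c) ≤ 1) (p : K[X][Y]) (x y : L)
    (hxy : aevalAeval x y p = 0) (hx : v x ≤ 1) (hy : 1 < v y) (a : K)
    (ha : p.leadingCoeff.eval a ≠ 0) : v (x - algebraMap K L a) = 1 := by
  by_contra hne
  have hlt : v (x - algebraMap K L a) < 1 := lt_of_le_of_ne (v_small v hK x hx a) hne
  have h1 : v (aeval x p.leadingCoeff) = 1 := by
    have h2 := lt_of_le_of_lt (v_aeval_sub v hK x hx p.leadingCoeff a) hlt
    have h3 : v (algebraMap K L (p.leadingCoeff.eval a)) = 1 := v_one v hK _ ha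
    have h4 : aeval x p.leadingCoeff = (aeval x p.leadingCoeff -
        algebraMap K L (p.leadingCoeff.eval a)) + algebraMap K L (p.leadingCoeff.eval a) := by ring
    rw [h4, Valuation.map_add_eq_of_lt_right v (by rw [h3]; exact h2), h3]
  rw [aevalAeval_sum, Finset.sum_range_succ] at hxy
  have h5 : v (aeval x (p.coeff p.natDegree) * y ^ p.natDegree) = v y ^ p.natDegree := by
    rw [map_mul, map_pow]
    rw [show p.coeff p.natDegree = p.leadingCoeff from rfl, h1, one_mul]
  have hy0 : 0 < v y := lt_trans zero_lt_one hy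
  have h6 : v (∑ j ∈ Finset.range p.natDegree, aeval x (p.coeff j) * y ^ j) <
      v y ^ p.natDegree := by
    refine Valuation.map_sum_lt v (pow_pos hy0 _).ne' fun j hj => ?_
    rw [map_mul, map_pow]
    calc v (aeval x (p.coeff j)) * v y ^ j ≤ 1 * v y ^ j := by
          gcongr
          exact v_aeval v hK x hx _
      _ = v y ^ j := one_mul _
      _ < v y ^ p.natDegree := pow_lt_pow_right₀ hy (Finset.mem_range.1 hj)
  have h7 := Valuation.map_add_eq_of_lt_right v (by rw [h5]; exact h6)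
    (x := ∑ j ∈ Finset.range p.natDegree, aeval x (p.coeff j) * y ^ j)
    (y := aeval x (p.coeff p.natDegree) * y ^ p.natDegree)
  rw [hxy, h5, map_zero] at h7
  exact (pow_pos hy0 _).ne h7

/-- `x`, `y` finite and `x` close to `a`: then `y` is close to some `b` -/
theorem v_fin (hK : ∀ c : K, v (algebraMap K L c) ≤ 1) (p : K[X][Y]) (A B : Finset K)
    (hG : HalfGood p A B) (x y : L) (hxy : aevalAeval x y p = 0) (hx : v x ≤ 1) (hy : v y ≤ 1)
    (a : K) (ha : a ∈ A) (hxa : v (x - algebraMap K L a) < 1) :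
    ∃ b ∈ B, v (y - algebraMap K L b) < 1 ∧
      v (y - algebraMap K L b) ≤ v (x - algebraMap K L a) := by
  obtain ⟨-, S, hS, l, hl, hp⟩ := hG a ha
  have h1 : v (aeval y (p.map (evalRingHom a))) ≤ v (x - algebraMap K L a) := by
    have h2 : aeval y (p.map (evalRingHom a)) =
        - ∑ j ∈ Finset.range (p.natDegree + 1),
          (aeval x (p.coeff j) - algebraMap K L ((p.coeff j).eval a)) * y ^ j := by
      have h3 : aeval y (p.map (evalRingHom a)) = ∑ j ∈ Finset.range (p.natDegree + 1),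
          algebraMap K L ((p.coeff j).eval a) * y ^ j := by
        conv_lhs => rw [p.as_sum_range_C_mul_X_pow]
        simp [Polynomial.map_sum, map_sum]
      rw [aevalAeval_sum] at hxy
      simp only [sub_mul, Finset.sum_sub_distrib]
      rw [hxy, h3]
      ring
    rw [h2, Valuation.map_neg]
    refine Valuation.map_sum_le v fun j _ => ?_
    rw [map_mul, map_pow]
    exact le_trans (mul_le_of_le_one_right' (pow_le_one' hy _)) (v_aeval_sub v hK x hx _ a)
  have h4 : v (aeval y (p.map (evalRingHom a))) = ∏ b ∈ S, v (y - algebraMap K L b) := by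
    rw [hp, map_mul, map_mul, aeval_C, v_one v hK l hl, one_mul, map_prod, map_prod]
    simp
  obtain ⟨b, hb, hvb⟩ : ∃ b ∈ S, v (y - algebraMap K L b) < 1 := by
    by_contra hno
    push Not at hno
    have : ∏ b ∈ S, v (y - algebraMap K L b) = 1 :=
      Finset.prod_eq_one fun b hb => le_antisymm (v_small v hK y hy b) (hno b hb)
    rw [h4, this] at h1
    exact absurd (lt_of_le_of_lt h1 hxa) (lt_irrefl _)
  refine ⟨b, hS hb, hvb, ?_⟩
  rw [← h1.trans_eq' rfl |>.trans_eq rfl |> fun _ => (Finset.prod_eq_single b (fun b' _ hne =>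
    v_unique v hK y b b' hne.symm hvb) (fun h => absurd hb h) :
      ∏ b ∈ S, v (y - algebraMap K L b) = v (y - algebraMap K L b)), ← h4]
  exact h1

/-- a product over a good set with one small factor -/
theorem v_prod_single (hK : ∀ c : K, v (algebraMap K L c) ≤ 1) (x : L) (A : Finset K) (a : K)
    (ha : a ∈ A) (hxa : v (x - algebraMap K L a) < 1) :
    v (∏ a ∈ A, (x - algebraMap K L a)) = v (x - algebraMap K L a) := by
  rw [map_prod]
  exact Finset.prod_eq_single a (fun b _ hne => v_unique v hK x a b hne.symm hxa)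
    (fun h => absurd ha h)

theorem v_prod_big (hK : ∀ c : K, v (algebraMap K L c) ≤ 1) (x : L) (A : Finset K)
    (hx : 1 < v x) : v (∏ a ∈ A, (x - algebraMap K L a)) = v x ^ A.card := by
  rw [map_prod, Finset.prod_congr rfl fun a _ => v_big v hK x hx a, Finset.prod_const]

theorem v_finite_eq (hK : ∀ c : K, v (algebraMap K L c) ≤ 1) (p : K[X][Y]) (A B : Finset K)
    (hG : Good p A B) (x y : L) (hxy : aevalAeval x y p = 0) (hx : v x ≤ 1) (hy : v y ≤ 1) :
    v (∏ a ∈ A, (x - algebraMap K L a)) = v (∏ b ∈ B, (y - algebraMap K L b)) := by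
  have hyx : aevalAeval y x (swap p) = 0 := by
    rw [Bivariate.aevalAeval_swap]; exact hxy
  by_cases hA : ∃ a ∈ A, v (x - algebraMap K L a) < 1
  · obtain ⟨a, ha, hxa⟩ := hA
    obtain ⟨b, hb, hyb, hle⟩ := v_fin v hK p A B hG.1 x y hxy hx hy a ha hxa
    obtain ⟨a', ha', hxa', hle'⟩ := v_fin v hK (swap p) B A hG.2 y x hyx hy hx b hb hyb
    have haa : a' = a := by
      by_contra hne
      exact absurd (v_unique v hK x a' a hne hxa') hxa.ne
    subst haa
    rw [v_prod_single v hK x A a' ha' hxa, v_prod_single v hK y B b hb hyb]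
    exact le_antisymm hle' hle
  · by_cases hB : ∃ b ∈ B, v (y - algebraMap K L b) < 1
    · obtain ⟨b, hb, hyb⟩ := hB
      obtain ⟨a', ha', hxa', hle'⟩ := v_fin v hK (swap p) B A hG.2 y x hyx hy hx b hb hyb
      exact absurd ⟨a', ha', hxa'⟩ hA
    · push Not at hA hB
      rw [map_prod, map_prod, Finset.prod_eq_one fun a ha => le_antisymm
        (v_small v hK x hx a) (hA a ha), Finset.prod_eq_one fun b hb => le_antisymm
        (v_small v hK y hy b) (hB b hb)]

theorem v_half_inf (hK : ∀ c : K, v (algebraMap K L c) ≤ 1) (p : K[X][Y]) (A B : Finset K)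
    (hG : HalfGood p A B) (x y : L) (hxy : aevalAeval x y p = 0) (hx : v x ≤ 1) (hy : 1 < v y) :
    v (∏ a ∈ A, (x - algebraMap K L a)) = 1 := by
  rw [map_prod]
  exact Finset.prod_eq_one fun a ha => v_inf v hK p x y hxy hx hy a (hG a ha).1

theorem v_key (hK : ∀ c : K, v (algebraMap K L c) ≤ 1) (p : K[X][Y]) (A1 B1 A2 B2 : Finset K)
    (N1 N2 : ℕ) (h1 : Good p A1 B1) (h2 : Good p A2 B2) (hA : A1.card * N2 = A2.card * N1)
    (hB : B1.card * N2 = B2.card * N1) (x y : L) (hxy : aevalAeval x y p = 0) :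
    v ((∏ a ∈ A1, (x - algebraMap K L a)) ^ N2 * (∏ b ∈ B2, (y - algebraMap K L b)) ^ N1) =
    v ((∏ a ∈ A2, (x - algebraMap K L a)) ^ N1 * (∏ b ∈ B1, (y - algebraMap K L b)) ^ N2) := by
  have hyx : aevalAeval y x (swap p) = 0 := by
    rw [Bivariate.aevalAeval_swap]; exact hxy
  simp only [map_mul, map_pow]
  rcases le_or_gt (v x) 1 with hx | hx <;> rcases le_or_gt (v y) 1 with hy | hy
  · rw [v_finite_eq v hK p A1 B1 h1 x y hxy hx hy, v_finite_eq v hK p A2 B2 h2 x y hxy hx hy,
      mul_comm]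
  · rw [v_half_inf v hK p A1 B1 h1.1 x y hxy hx hy, v_half_inf v hK p A2 B2 h2.1 x y hxy hx hy,
      v_prod_big v hK y _ hy, v_prod_big v hK y _ hy, ← pow_mul, ← pow_mul, hB]
    simp
  · rw [v_half_inf v hK (swap p) B1 A1 h1.2 y x hyx hy hx,
      v_half_inf v hK (swap p) B2 A2 h2.2 y x hyx hy hx,
      v_prod_big v hK x _ hx, v_prod_big v hK x _ hx, ← pow_mul, ← pow_mul, hA]
    simp
  · rw [v_prod_big v hK x _ hx, v_prod_big v hK x _ hx, v_prod_big v hK y _ hy,
      v_prod_big v hK y _ hy, ← pow_mul, ← pow_mul, ← pow_mul, ← pow_mul, hA, hB]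

end valuations

section core

variable {L : Type*} [Field L] [Algebra K L]

theorem core [IsAlgClosed K] (p : K[X][Y]) (A1 B1 A2 B2 : Finset K)
    (N1 N2 : ℕ) (h1 : Good p A1 B1) (h2 : Good p A2 B2) (hA : A1.card * N2 = A2.card * N1)
    (hB : B1.card * N2 = B2.card * N1) (x y : L) (hxy : aevalAeval x y p = 0)
    (hxn : ∀ a ∈ A2, x ≠ algebraMap K L a) (hyn : ∀ b ∈ B1, y ≠ algebraMap K L b) :
    ∃ c : K, (∏ a ∈ A1, (x - algebraMap K L a)) ^ N2 * (∏ b ∈ B2, (y - algebraMap K L b)) ^ N1 =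
      algebraMap K L c *
      ((∏ a ∈ A2, (x - algebraMap K L a)) ^ N1 * (∏ b ∈ B1, (y - algebraMap K L b)) ^ N2) := by
  have hne : (∏ a ∈ A2, (x - algebraMap K L a)) ^ N1 *
      (∏ b ∈ B1, (y - algebraMap K L b)) ^ N2 ≠ 0 := by
    refine mul_ne_zero (pow_ne_zero _ (Finset.prod_ne_zero_iff.2 fun a ha => ?_))
      (pow_ne_zero _ (Finset.prod_ne_zero_iff.2 fun b hb => ?_))
    · exact sub_ne_zero.2 (hxn a ha)
    · exact sub_ne_zero.2 (hyn b hb)
  obtain ⟨c, hc⟩ := const_of_valuation (K := K)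
    (((∏ a ∈ A1, (x - algebraMap K L a)) ^ N2 * (∏ b ∈ B2, (y - algebraMap K L b)) ^ N1) /
      ((∏ a ∈ A2, (x - algebraMap K L a)) ^ N1 * (∏ b ∈ B1, (y - algebraMap K L b)) ^ N2))
    (fun V hV => by
      rw [← ValuationSubring.valuation_le_one_iff, map_div₀,
        v_key V.valuation (fun c => (ValuationSubring.valuation_le_one_iff _ _).2 (hV c)) p
          A1 B1 A2 B2 N1 N2 h1 h2 hA hB x y hxy,
        div_self ((Valuation.ne_zero_iff _).2 hne)])
  exact ⟨c, (div_eq_iff hne).1 hc⟩

end core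

/-- S = the set of roots of p(a, .), which are simple -/
theorem halfGood_of [IsAlgClosed K] (p : K[X][Y]) (A B : Finset K)
    (h : ∀ a ∈ A, p.leadingCoeff.eval a ≠ 0 ∧ (p.map (evalRingHom a)).Separable)
    (hB : ∀ a ∈ A, ∀ b : K, p.evalEval a b = 0 → b ∈ B) : HalfGood p A B := by
  classical
  intro a ha
  obtain ⟨h1, h2⟩ := h a ha
  refine ⟨h1, ?_⟩
  set q := p.map (evalRingHom a) with hq
  have hlc : q.leadingCoeff = p.leadingCoeff.eval a := by
    rw [hq, leadingCoeff_map_of_leadingCoeff_ne_zero]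
    · rfl
    · exact h1
  have hq0 : q ≠ 0 := by
    intro h0
    rw [h0, leadingCoeff_zero] at hlc
    exact h1 hlc.symm
  refine ⟨q.roots.toFinset, ?_, q.leadingCoeff, ?_, ?_⟩
  · intro b hb
    apply hB a ha
    rw [Multiset.mem_toFinset, mem_roots hq0, IsRoot.def] at hb
    rw [← hb, hq, map_evalRingHom_eval]
  · rw [hlc]; exact h1
  · have hnd := nodup_roots h2
    have hs : q.Splits := IsAlgClosed.splits q
    have := hs.eq_prod_roots
    conv_lhs => rw [this]
    rw [Finset.prod_eq_multiset_prod, Multiset.toFinset_val, Multiset.dedup_eq_self.2 hnd]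

/-- every good fibre has exactly deg_y p points -/
theorem card_fibre [IsAlgClosed K] [DecidableEq K] (p : K[X][Y]) (B : Finset K) (a : K)
    (h1 : p.leadingCoeff.eval a ≠ 0) (h2 : (p.map (evalRingHom a)).Separable)
    (hB : ∀ b : K, p.evalEval a b = 0 → b ∈ B) :
    (B.filter fun b => p.evalEval a b = 0).card = p.natDegree := by
  set q := p.map (evalRingHom a) with hq
  have hlc : q.leadingCoeff = p.leadingCoeff.eval a := by
    rw [hq, leadingCoeff_map_of_leadingCoeff_ne_zero]
    · rfl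
    · exact h1
  have hq0 : q ≠ 0 := by
    intro h0
    rw [h0, leadingCoeff_zero] at hlc
    exact h1 hlc.symm
  have hnd : q.natDegree = p.natDegree := by
    rw [hq, natDegree_map_of_leadingCoeff_ne_zero]
    exact h1
  have hs : q.Splits := IsAlgClosed.splits q
  have hc : q.roots.card = q.natDegree := hs.natDegree_eq_card_roots.symm
  have he : (B.filter fun b => p.evalEval a b = 0) = q.roots.toFinset := by
    ext b
    rw [Finset.mem_filter, Multiset.mem_toFinset, mem_roots hq0, IsRoot.def, hq,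
      map_evalRingHom_eval]
    exact ⟨fun h => h.2, fun h => ⟨hB b h, h⟩⟩
  rw [he, Multiset.toFinset_card_of_nodup (nodup_roots h2), hc, hnd]

section orbits

theorem step_symm {p : K[X][Y]} {P Q : OnePoint K × OnePoint K} (h : Step p P Q) : Step p Q P :=
  ⟨h.2.1, h.1, h.2.2.imp Eq.symm Eq.symm⟩

theorem self_mem_orbit (p : K[X][Y]) (P : OnePoint K × OnePoint K) : P ∈ orbit p P :=
  Relation.ReflTransGen.refl

theorem orbit_symm {p : K[X][Y]} {P Q : OnePoint K × OnePoint K} (h : Q ∈ orbit p P) :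
    P ∈ orbit p Q := by
  have h' : Relation.ReflTransGen (Step p) P Q := h
  show Relation.ReflTransGen (Step p) Q P
  induction h' with
  | refl => exact Relation.ReflTransGen.refl
  | tail h1 h2 ih => exact Relation.ReflTransGen.head (step_symm h2) (ih h1)

theorem orbit_eq {p : K[X][Y]} {P Q : OnePoint K × OnePoint K} (h : Q ∈ orbit p P) :
    orbit p Q = orbit p P := by
  ext R
  exact ⟨fun hR => Relation.ReflTransGen.trans h hR,
    fun hR => Relation.ReflTransGen.trans (orbit_symm h) hR⟩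

theorem mem_curve_of_mem_orbit {p : K[X][Y]} {P Q : OnePoint K × OnePoint K} (hP : P ∈ Curve p)
    (h : Q ∈ orbit p P) : Q ∈ Curve p := by
  rcases Relation.ReflTransGen.cases_tail h with h | ⟨R, -, hR⟩
  · rw [h]; exact hP
  · exact hR.2.1

theorem mem_orbit_of_same {p : K[X][Y]} {P Q R : OnePoint K × OnePoint K} (hP : P ∈ Curve p)
    (hQ : Q ∈ orbit p P) (hR : R ∈ Curve p) (h : Q.1 = R.1 ∨ Q.2 = R.2) : R ∈ orbit p P :=
  Relation.ReflTransGen.tail hQ ⟨mem_curve_of_mem_orbit hP hQ, hR, h⟩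

theorem mem_curve_fin {p : K[X][Y]} {a b : K} :
    ((a : OnePoint K), (b : OnePoint K)) ∈ Curve p ↔ p.evalEval a b = 0 := by
  show bihom p (1, a) (1, b) = 0 ↔ _
  rw [bihom_fin]

/-- swapping the two coordinates -/
theorem mem_curve_swap {p : K[X][Y]} {P : OnePoint K × OnePoint K} :
    P.swap ∈ Curve (swap p) ↔ P ∈ Curve p := by
  show bihom (swap p) _ _ = 0 ↔ bihom p _ _ = 0
  rw [bihom_swap]
  rfl

/-- a good coordinate -/
def GoodCoord (p : K[X][Y]) (s : OnePoint K) : Prop :=
  ∃ a : K, s = a ∧ p.leadingCoeff.eval a ≠ 0 ∧ (p.map (evalRingHom a)).Separable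

open Classical in
theorem good_orbit [IsAlgClosed K] (p : K[X][Y]) (P : OnePoint K × OnePoint K)
    (hP : P ∈ Curve p) (hfin : (orbit p P).Finite)
    (hX : ∀ Q ∈ orbit p P, GoodCoord p Q.1) (hY : ∀ Q ∈ orbit p P, GoodCoord (swap p) Q.2) :
    ∃ A B : Finset K, Good p A B ∧ A.card * degY p = B.card * degX p ∧
      A.Nonempty ∧ (∀ a ∈ A, ∃ t, ((a : OnePoint K), t) ∈ orbit p P) ∧
      (∀ b ∈ B, ∃ t, (t, (b : OnePoint K)) ∈ orbit p P) := by
  -- the sets of the affine coordinates
  have hAf : {a : K | ∃ t, ((a : OnePoint K), t) ∈ orbit p P}.Finite := by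
    refine Set.Finite.of_finite_image (f := fun a : K => (a : OnePoint K)) ?_
      (OnePoint.coe_injective.injOn)
    refine (hfin.image Prod.fst).subset ?_
    rintro _ ⟨a, ⟨t, ht⟩, rfl⟩
    exact ⟨_, ht, rfl⟩
  have hBf : {b : K | ∃ t, (t, (b : OnePoint K)) ∈ orbit p P}.Finite := by
    refine Set.Finite.of_finite_image (f := fun a : K => (a : OnePoint K)) ?_
      (OnePoint.coe_injective.injOn)
    refine (hfin.image Prod.snd).subset ?_
    rintro _ ⟨a, ⟨t, ht⟩, rfl⟩
    exact ⟨_, ht, rfl⟩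
  set A := hAf.toFinset with hAdef
  set B := hBf.toFinset with hBdef
  have hA : ∀ a : K, a ∈ A ↔ ∃ t, ((a : OnePoint K), t) ∈ orbit p P := by
    intro a; rw [hAdef, Set.Finite.mem_toFinset]; rfl
  have hB : ∀ b : K, b ∈ B ↔ ∃ t, (t, (b : OnePoint K)) ∈ orbit p P := by
    intro a; rw [hBdef, Set.Finite.mem_toFinset]; rfl
  have hXa : ∀ a ∈ A, p.leadingCoeff.eval a ≠ 0 ∧ (p.map (evalRingHom a)).Separable := by
    intro a ha
    obtain ⟨t, ht⟩ := (hA a).1 ha
    obtain ⟨a', h1, h2⟩ := hX _ ht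
    have : a = a' := OnePoint.coe_injective h1
    rw [this]; exact h2
  have hYb : ∀ b ∈ B, (swap p).leadingCoeff.eval b ≠ 0 ∧
      ((swap p).map (evalRingHom b)).Separable := by
    intro b hb
    obtain ⟨t, ht⟩ := (hB b).1 hb
    obtain ⟨a', h1, h2⟩ := hY _ ht
    have : b = a' := OnePoint.coe_injective h1
    rw [this]; exact h2
  have hAB : ∀ a ∈ A, ∀ b : K, p.evalEval a b = 0 → b ∈ B := by
    intro a ha b hab
    obtain ⟨t, ht⟩ := (hA a).1 ha
    exact (hB b).2 ⟨a, mem_orbit_of_same hP ht (mem_curve_fin.2 hab) (Or.inl rfl)⟩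
  have hBA : ∀ b ∈ B, ∀ a : K, (swap p).evalEval b a = 0 → a ∈ A := by
    intro b hb a hab
    rw [evalEval_swap'] at hab
    obtain ⟨t, ht⟩ := (hB b).1 hb
    exact (hA a).2 ⟨b, mem_orbit_of_same hP ht (mem_curve_fin.2 hab) (Or.inr rfl)⟩
  refine ⟨A, B, ⟨halfGood_of p A B hXa hAB, halfGood_of (swap p) B A hYb hBA⟩, ?_, ?_, ?_, ?_⟩
  · have h1 : ∑ a ∈ A, (B.filter fun b => p.evalEval a b = 0).card = A.card * degY p := by
      rw [Finset.sum_congr rfl fun a ha => card_fibre p B a (hXa a ha).1 (hXa a ha).2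
        (hAB a ha), Finset.sum_const, smul_eq_mul]
      rfl
    have h2 : ∑ b ∈ B, (A.filter fun a => p.evalEval a b = 0).card = B.card * degX p := by
      have : ∀ b ∈ B, (A.filter fun a => p.evalEval a b = 0).card = degX p := by
        intro b hb
        rw [← degY_swap]
        have := card_fibre (swap p) A b (hYb b hb).1 (hYb b hb).2 (hBA b hb)
        simp only [evalEval_swap'] at this
        exact this
      rw [Finset.sum_congr rfl this, Finset.sum_const, smul_eq_mul]
    rw [← h1, ← h2]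
    exact Finset.sum_card_bipartiteAbove_eq_sum_card_bipartiteBelow _
  · obtain ⟨a, ha, -⟩ := hX P (self_mem_orbit p P)
    exact ⟨a, (hA a).2 ⟨P.2, by rw [← ha]; exact self_mem_orbit p P⟩⟩
  · exact fun a ha => (hA a).1 ha
  · exact fun b hb => (hB b).1 hb

/-- a common first or second coordinate -/
theorem orbit_eq_of_same {p : K[X][Y]} {P Q P' Q' : OnePoint K × OnePoint K}
    (hP : P ∈ Curve p) (hQ : Q ∈ Curve p) (hP' : P' ∈ orbit p P) (hQ' : Q' ∈ orbit p Q)
    (h : P'.1 = Q'.1 ∨ P'.2 = Q'.2) : orbit p P = orbit p Q := by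
  have h1 : Q' ∈ orbit p P := mem_orbit_of_same hP hP' (mem_curve_of_mem_orbit hQ hQ') h
  rw [← orbit_eq h1, orbit_eq hQ']

end orbits

section final

theorem swap_ne_C {p : K[X][Y]} (hy : ∀ g : K[X], p ≠ g.map C) (f : K[X]) : swap p ≠ C f := by
  intro h
  refine hy f ?_
  rw [← Bivariate.swap_swap_apply p, h, Bivariate.swap_C]

theorem swap_ne_map {p : K[X][Y]} (hx : ∀ g : K[X], p ≠ C g) (f : K[X]) : swap p ≠ f.map C := by
  intro h
  refine hx f ?_
  rw [← Bivariate.swap_swap_apply p, h, Bivariate.swap_map_C]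

theorem ndvd_C {p : K[X][Y]} (hp : p ≠ 0) (hx : ∀ f : K[X], p ≠ C f) (f : K[X])
    (hf : f ≠ 0) : ¬ p ∣ C f := by
  rintro ⟨q, hq⟩
  have h0 : (C f : K[X][Y]) ≠ 0 := by simpa using hf
  have hq0 : q ≠ 0 := by rintro rfl; rw [mul_zero] at hq; exact h0 hq
  have h1 := natDegree_mul hp hq0
  rw [← hq, natDegree_C] at h1
  have h2 : p.natDegree = 0 := by omega
  exact hx _ (eq_C_of_natDegree_eq_zero h2)

theorem ndvd_map {p : K[X][Y]} (hp : p ≠ 0) (hy : ∀ g : K[X], p ≠ g.map C) (f : K[X])
    (hf : f ≠ 0) : ¬ p ∣ f.map C := by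
  rintro ⟨q, hq⟩
  have h1 : C f = swap p * swap q := by
    rw [← map_mul, ← hq, Bivariate.swap_map_C]
  have h2 : swap p ≠ 0 := by
    intro h
    apply hp
    rw [← Bivariate.swap_swap_apply p, h, map_zero]
  exact ndvd_C h2 (swap_ne_C hy) f hf ⟨_, h1⟩

theorem exists_field_aux.{u} {K : Type u} [Field K] {R : Type u} [CommRing R] [IsDomain R]
    [Algebra K R] (ψ : K[X][Y] →ₐ[K] R) :
    ∃ (L : Type u) (_ : Field L) (_ : Algebra K L) (x y : L),
      ∀ q : K[X][Y], aevalAeval x y q = 0 ↔ ψ q = 0 := by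
  obtain ⟨φ, hφ⟩ : ∃ φ : K[X][Y] →ₐ[K] FractionRing R,
      φ = (IsScalarTower.toAlgHom K R (FractionRing R)).comp ψ := ⟨_, rfl⟩
  have h1 : aevalAeval (φ (C X)) (φ X) = φ := (aevalAevalEquiv K (FractionRing R)).right_inv φ
  refine ⟨FractionRing R, inferInstance, inferInstance, φ (C X), φ X, fun q => ?_⟩
  rw [h1, hφ, AlgHom.comp_apply, IsScalarTower.toAlgHom_apply,
    map_eq_zero_iff (algebraMap R (FractionRing R)) (IsFractionRing.injective R (FractionRing R))]

/-- the function field of the curve -/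
theorem exists_field.{u} {K : Type u} [Field K] (p : K[X][Y]) (hp : Prime p) :
    ∃ (L : Type u) (_ : Field L) (_ : Algebra K L) (x y : L),
      ∀ q : K[X][Y], aevalAeval x y q = 0 ↔ p ∣ q := by
  have hprime : (Ideal.span {p}).IsPrime := (Ideal.span_singleton_prime hp.ne_zero).2 hp
  obtain ⟨L, i1, i2, x, y, h⟩ := exists_field_aux (K := K)
    (R := K[X][Y] ⧸ (Ideal.span {p} : Ideal K[X][Y])) (Ideal.Quotient.mkₐ K _)
  refine ⟨L, i1, i2, x, y, fun q => ?_⟩
  rw [h, Ideal.Quotient.mkₐ_eq_mk, Ideal.Quotient.eq_zero_iff_mem, Ideal.mem_span_singleton]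

/-- two different good finite orbits contradict the triviality of the field of separated
multiples -/
theorem two_orbits [IsAlgClosed K] (p : K[X][Y]) (hp : Prime p) (hx : ∀ f : K[X], p ≠ C f)
    (hy : ∀ g : K[X], p ≠ g.map C) (hF : TrivialField p) (P Q : OnePoint K × OnePoint K)
    (hP : P ∈ Curve p) (hQ : Q ∈ Curve p) (hPf : (orbit p P).Finite) (hQf : (orbit p Q).Finite)
    (hPX : ∀ R ∈ orbit p P, GoodCoord p R.1) (hPY : ∀ R ∈ orbit p P, GoodCoord (swap p) R.2)
    (hQX : ∀ R ∈ orbit p Q, GoodCoord p R.1) (hQY : ∀ R ∈ orbit p Q, GoodCoord (swap p) R.2) :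
    orbit p P = orbit p Q := by
  by_contra hne
  obtain ⟨A1, B1, hG1, hc1, ⟨a1, ha1⟩, hA1, hB1⟩ := good_orbit p P hP hPf hPX hPY
  obtain ⟨A2, B2, hG2, hc2, ⟨a2, ha2⟩, hA2, hB2⟩ := good_orbit p Q hQ hQf hQX hQY
  have hdX : ∀ a, a ∈ A1 → a ∈ A2 → False := by
    intro a h1 h2
    obtain ⟨t, ht⟩ := hA1 a h1
    obtain ⟨s, hs⟩ := hA2 a h2
    exact hne (orbit_eq_of_same hP hQ ht hs (Or.inl rfl))
  have hmpos : 0 < degY p := by
    rcases Nat.eq_zero_or_pos (degY p) with h | h
    · exact absurd (eq_C_of_natDegree_eq_zero h) (hx _)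
    · exact h
  obtain ⟨N1, hN1⟩ : ∃ N1, N1 = A1.card * degY p := ⟨_, rfl⟩
  obtain ⟨N2, hN2⟩ : ∃ N2, N2 = A2.card * degY p := ⟨_, rfl⟩
  have hN2pos : 0 < N2 := by
    rw [hN2]; exact Nat.mul_pos (Finset.card_pos.2 ⟨a2, ha2⟩) hmpos
  have hN1' : N1 = B1.card * degX p := by rw [hN1, hc1]
  have hN2' : N2 = B2.card * degX p := by rw [hN2, hc2]
  obtain ⟨L, _, _, x, y, hφ⟩ := exists_field p hp
  have e1 : ∀ a : K, aevalAeval x y (C (X - C a) : K[X][Y]) = x - algebraMap K L a := by
    intro a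
    rw [aevalAeval_C, map_sub, aeval_X, aeval_C]
  have e2 : ∀ a : K, aevalAeval x y ((X - C a : K[X]).map C : K[X][Y]) =
      y - algebraMap K L a := by
    intro a
    rw [Polynomial.map_sub, map_X, map_C, map_sub, aevalAeval_Y, aevalAeval_C, aeval_C]
  obtain ⟨c, hc⟩ := core p A1 B1 A2 B2 N1 N2 hG1 hG2 (by rw [hN1, hN2]; ring)
    (by rw [hN1', hN2']; ring) x y ((hφ p).2 dvd_rfl)
    (by
      intro a _ h
      refine ndvd_C hp.ne_zero hx _ (X_sub_C_ne_zero a) ((hφ _).1 ?_)
      rw [e1, h, sub_self])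
    (by
      intro a _ h
      refine ndvd_map hp.ne_zero hy _ (X_sub_C_ne_zero a) ((hφ _).1 ?_)
      rw [e2, h, sub_self])
  refine no_separated p hp hx hy hF ((∏ a ∈ A1, (X - C a)) ^ N2) ((∏ a ∈ A2, (X - C a)) ^ N1)
    ((∏ b ∈ B1, (X - C b)) ^ N2) ((∏ b ∈ B2, (X - C b)) ^ N1) c ?_ ?_ ?_ a1 ?_ ?_ ?_
  · exact pow_ne_zero _ (Finset.prod_ne_zero_iff.2 fun a _ => X_sub_C_ne_zero a)
  · exact pow_ne_zero _ (Finset.prod_ne_zero_iff.2 fun a _ => X_sub_C_ne_zero a)
  · rw [← hφ]
    have f1 : ∀ (A : Finset K) (N : ℕ), aevalAeval x y (C ((∏ a ∈ A, (X - C a)) ^ N) : K[X][Y]) =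
        (∏ a ∈ A, (x - algebraMap K L a)) ^ N := by
      intro A N
      rw [aevalAeval_C, map_pow, map_prod]
      simp
    have f2 : ∀ (A : Finset K) (N : ℕ), aevalAeval x y
        (((∏ a ∈ A, (X - C a) : K[X]) ^ N).map C : K[X][Y]) =
        (∏ a ∈ A, (y - algebraMap K L a)) ^ N := by
      intro A N
      rw [Polynomial.map_pow, Polynomial.map_prod, map_pow, map_prod]
      simp only [e2]
    rw [map_sub, map_mul, map_mul, map_mul, f1, f1, f2, f2, aevalAeval_C, aeval_C, hc, sub_self]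
  · rw [eval_pow, eval_prod, Finset.prod_eq_zero ha1 (by simp), zero_pow hN2pos.ne']
  · rw [eval_pow, eval_prod]
    refine pow_ne_zero _ (Finset.prod_ne_zero_iff.2 fun a ha => ?_)
    rw [eval_sub, eval_X, eval_C, sub_ne_zero]
    rintro rfl
    exact hdX _ ha1 ha
  · exact pow_ne_zero _ (Finset.prod_ne_zero_iff.2 fun a _ => X_sub_C_ne_zero a)

end final

section main

theorem finite_orbits [IsAlgClosed K] [CharZero K] (p : K[X][Y]) (hp : Irreducible p)
    (hx : ∀ f : K[X], p ≠ C f) (hy : ∀ g : K[X], p ≠ g.map C) (hF : TrivialField p) :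
    {O : Set (OnePoint K × OnePoint K) | ∃ P ∈ Curve p, O = orbit p P ∧ O.Finite}.Finite := by
  have hpp : Prime p := hp.prime
  have hq : Irreducible (swap p) := (MulEquiv.irreducible_iff (swap (R := K))).2 hp
  -- the bad coordinates
  have hbad : ∀ q : K[X][Y], Irreducible q → (∀ f : K[X], q ≠ C f) →
      {s : OnePoint K | ¬ GoodCoord q s}.Finite := by
    intro q hq hqx
    refine (((bad_finite q hq hqx).image (fun a : K => (a : OnePoint K))).union
      (Set.finite_singleton (OnePoint.infty : OnePoint K))).subset ?_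
    intro s hs
    induction s using OnePoint.rec with
    | infty => exact Or.inr rfl
    | coe a => exact Or.inl ⟨a, fun h => hs ⟨a, rfl, h⟩, rfl⟩
  have hX := hbad p hp hx
  have hY := hbad (swap p) hq (swap_ne_C hy)
  -- the good orbits
  have hgood : {O : Set (OnePoint K × OnePoint K) | (∃ P ∈ Curve p, O = orbit p P ∧ O.Finite) ∧
      (∀ R ∈ O, GoodCoord p R.1) ∧ (∀ R ∈ O, GoodCoord (swap p) R.2)}.Finite := by
    refine Set.Subsingleton.finite ?_
    rintro O ⟨⟨P, hP, rfl, hPf⟩, h1, h2⟩ O' ⟨⟨Q, hQ, rfl, hQf⟩, h3, h4⟩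
    exact two_orbits p hpp hx hy hF P Q hP hQ hPf hQf h1 h2 h3 h4
  refine (hgood.union ((hX.biUnion (t := fun s => {O : Set (OnePoint K × OnePoint K) |
    (∃ P ∈ Curve p, O = orbit p P) ∧ ∃ R ∈ O, R.1 = s}) ?_).union (hY.biUnion (t := fun s =>
    {O : Set (OnePoint K × OnePoint K) | (∃ P ∈ Curve p, O = orbit p P) ∧ ∃ R ∈ O, R.2 = s})
    ?_))).subset ?_
  · intro s _
    refine Set.Subsingleton.finite ?_
    rintro O ⟨⟨P, hP, rfl⟩, R, hR, hRs⟩ O' ⟨⟨Q, hQ, rfl⟩, S, hS, hSs⟩
    exact orbit_eq_of_same hP hQ hR hS (Or.inl (by rw [hRs, hSs]))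
  · intro s _
    refine Set.Subsingleton.finite ?_
    rintro O ⟨⟨P, hP, rfl⟩, R, hR, hRs⟩ O' ⟨⟨Q, hQ, rfl⟩, S, hS, hSs⟩
    exact orbit_eq_of_same hP hQ hR hS (Or.inr (by rw [hRs, hSs]))
  · rintro O ⟨P, hP, hO, hOf⟩
    by_cases h1 : ∀ R ∈ O, GoodCoord p R.1
    · by_cases h2 : ∀ R ∈ O, GoodCoord (swap p) R.2
      · exact Or.inl ⟨⟨P, hP, hO, hOf⟩, h1, h2⟩
      · push Not at h2
        obtain ⟨R, hR, hRb⟩ := h2
        exact Or.inr (Or.inr (Set.mem_biUnion (x := R.2) hRb ⟨⟨P, hP, hO⟩, R, hR, rfl⟩))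
    · push Not at h1
      obtain ⟨R, hR, hRb⟩ := h1
      exact Or.inr (Or.inl (Set.mem_biUnion (x := R.1) hRb ⟨⟨P, hP, hO⟩, R, hR, rfl⟩))

end main

end Pool.Agent.Helper581_FO
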